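import Pool.Agent.helper62.VN.SpecE

set_option autoImplicit false

open scoped MatrixGroups ContDiff Topology UpperHalfPlane
open UpperHalfPlane MeasureTheory Filter Set

namespace Pool.Agent.VNE

open Pool.Agent.RS Pool.Agent.VQE

lemma NWZ_exp (μ c t : ℝ) : HasDerivAt (fun s : ℝ => c * Real.exp (-(μ * s))) (c * (Real.exp (-(μ * t)) * (-(μ * 1)))) t := by
  have h1 : HasDerivAt (fun s : ℝ => -(μ * s)) (-(μ * 1)) t := ((hasDerivAt_id t).const_mul μ).neg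
  exact h1.exp.const_mul c

lemma NWZ_up (w : ℝ → ℝ) (μ B T : ℝ) (hμ : 0 < μ) (hT : 0 ≤ T)
    (hd : ∀ t ∈ Icc (0 : ℝ) T, ∃ d, HasDerivAt w d t ∧ d ≤ B * Real.exp (-(μ * t))) :
    w T ≤ w 0 + B / μ - B / μ * Real.exp (-(μ * T)) := by
  have hanti : AntitoneOn (fun t => w t + B / μ * Real.exp (-(μ * t))) (Icc (0 : ℝ) T) := by
    apply antitoneOn_of_deriv_nonpos (convex_Icc 0 T)
    · intro t ht
      obtain ⟨d, hd1, _⟩ := hd t ht
      exact (hd1.add (NWZ_exp μ (B / μ) t)).continuousAt.continuousWithinAt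
    · intro t ht
      rw [interior_Icc] at ht
      obtain ⟨d, hd1, _⟩ := hd t (Ioo_subset_Icc_self ht)
      exact (hd1.add (NWZ_exp μ (B / μ) t)).differentiableAt.differentiableWithinAt
    · intro t ht
      rw [interior_Icc] at ht
      obtain ⟨d, hd1, hd2⟩ := hd t (Ioo_subset_Icc_self ht)
      have h1 : HasDerivAt (fun t => w t + B / μ * Real.exp (-(μ * t))) (d + B / μ * (Real.exp (-(μ * t)) * (-(μ * 1)))) t :=
        hd1.add (NWZ_exp μ (B / μ) t)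
      rw [h1.deriv]
      have h2 : B / μ * (Real.exp (-(μ * t)) * (-(μ * 1))) = -(B * Real.exp (-(μ * t))) := by
        field_simp
      rw [h2]
      linarith
  have h := hanti (left_mem_Icc.2 hT) (right_mem_Icc.2 hT) hT
  simp only [mul_zero, neg_zero, Real.exp_zero, mul_one] at h
  linarith

lemma NWZ_abs (w : ℝ → ℝ) (μ B T : ℝ) (hμ : 0 < μ) (hT : 0 ≤ T)
    (hd : ∀ t ∈ Icc (0 : ℝ) T, ∃ d, HasDerivAt w d t ∧ |d| ≤ B * Real.exp (-(μ * t))) :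
    |w 0| ≤ |w T| + B / μ := by
  have hB : 0 ≤ B := by
    obtain ⟨d, _, h⟩ := hd 0 (left_mem_Icc.2 hT)
    rw [mul_zero, neg_zero, Real.exp_zero, mul_one] at h
    exact (abs_nonneg _).trans h
  have h0 : 0 ≤ B / μ * Real.exp (-(μ * T)) := by positivity
  have h1 := NWZ_up w μ B T hμ hT fun t ht => by
    obtain ⟨d, h, h'⟩ := hd t ht
    exact ⟨d, h, (le_abs_self _).trans h'⟩
  have h2 := NWZ_up (fun t => -w t) μ B T hμ hT fun t ht => by
    obtain ⟨d, h, h'⟩ := hd t ht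
    exact ⟨-d, h.neg, (neg_le_abs _).trans h'⟩
  have h3 := le_abs_self (w T)
  have h4 := neg_abs_le (w T)
  rw [abs_le]
  constructor
  · linarith
  · linarith

lemma NWZ_w {η P k β χ β2 χ2 b c b2 c2 : ℝ} (h1 : |b - P * χ| ≤ η * (|β| + |χ|)) (h2 : |c - k * β| ≤ η * (|β| + |χ|))
    (h3 : |b2 - P * χ2| ≤ η * (|β2| + |χ2|)) (h4 : |c2 - k * β2| ≤ η * (|β2| + |χ2|)) :
    |b * χ2 + β * c2 - (c * β2 + χ * b2)| ≤ 2 * (η * ((|β| + |χ|) * (|β2| + |χ2|))) := by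
  have e : b * χ2 + β * c2 - (c * β2 + χ * b2) =
      (b - P * χ) * χ2 + β * (c2 - k * β2) - (c - k * β) * β2 - χ * (b2 - P * χ2) := by ring
  rw [e]
  have a1 : |(b - P * χ) * χ2| ≤ η * (|β| + |χ|) * |χ2| := by
    rw [abs_mul]
    exact mul_le_mul_of_nonneg_right h1 (abs_nonneg _)
  have a2 : |β * (c2 - k * β2)| ≤ |β| * (η * (|β2| + |χ2|)) := by
    rw [abs_mul]
    exact mul_le_mul_of_nonneg_left h4 (abs_nonneg _)
  have a3 : |(c - k * β) * β2| ≤ η * (|β| + |χ|) * |β2| := by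
    rw [abs_mul]
    exact mul_le_mul_of_nonneg_right h2 (abs_nonneg _)
  have a4 : |χ * (b2 - P * χ2)| ≤ |χ| * (η * (|β2| + |χ2|)) := by
    rw [abs_mul]
    exact mul_le_mul_of_nonneg_left h3 (abs_nonneg _)
  have t1 := abs_sub ((b - P * χ) * χ2 + β * (c2 - k * β2) - (c - k * β) * β2) (χ * (b2 - P * χ2))
  have t2 := abs_sub ((b - P * χ) * χ2 + β * (c2 - k * β2)) ((c - k * β) * β2)
  have t3 := abs_add_le ((b - P * χ) * χ2) (β * (c2 - k * β2))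
  nlinarith

theorem NWZ_proof (h1 : NDC_stmt) : NWZ_stmt := by
  intro K μ hK hμ
  obtain ⟨C0, μ0, hC0, hμ0, hN⟩ := h1 K hK
  refine ⟨1 + 2 * C0 ^ 2 / μ, ?_, ?_⟩
  · have : 0 ≤ 2 * C0 ^ 2 / μ := by positivity
    linarith
  intro A P k β χ β2 χ2 hA hL hq
  obtain ⟨v0, hv0⟩ : ∃ v : ℝ, v = |β 0| + |χ 0| := ⟨_, rfl⟩
  obtain ⟨u0, hu0⟩ : ∃ u : ℝ, u = |β2 0| + |χ2 0| := ⟨_, rfl⟩
  rw [← hv0, ← hu0]
  have hv0n : 0 ≤ v0 := by rw [hv0]; positivity
  have hu0n : 0 ≤ u0 := by rw [hu0]; positivity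
  have hdv : ∀ t : ℝ, 0 ≤ t → |β t| + |χ t| ≤ C0 * Real.exp (-(μ0 * t)) * v0 := by
    intro t ht
    have h := (hN _ P k β χ 0 t ht (hL t).1).2.2.1 (hq t ht).1 t (right_mem_Icc.2 ht)
    rw [sub_zero, ← hv0] at h
    exact h
  have hdu : ∀ t : ℝ, 0 ≤ t → |β2 t| + |χ2 t| ≤ C0 * Real.exp (-(μ0 * t)) * u0 := by
    intro t ht
    have h := (hN _ P k β2 χ2 0 t ht (hL t).2).2.2.1 (hq t ht).2 t (right_mem_Icc.2 ht)
    rw [sub_zero, ← hu0] at h
    exact h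
  have hpr : ∀ t : ℝ, 0 ≤ t → (|β t| + |χ t|) * (|β2 t| + |χ2 t|) ≤ C0 ^ 2 * Real.exp (-(μ0 * t)) * (v0 * u0) := by
    intro t ht
    have he : Real.exp (-(μ0 * t)) ≤ 1 := by
      rw [Real.exp_le_one_iff]
      have : 0 ≤ μ0 * t := by positivity
      linarith
    have he0 := Real.exp_pos (-(μ0 * t))
    calc (|β t| + |χ t|) * (|β2 t| + |χ2 t|) ≤ (C0 * Real.exp (-(μ0 * t)) * v0) * (C0 * Real.exp (-(μ0 * t)) * u0) :=
          mul_le_mul (hdv t ht) (hdu t ht) (by positivity) (by positivity)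
      _ = (C0 ^ 2 * Real.exp (-(μ0 * t)) * (v0 * u0)) * Real.exp (-(μ0 * t)) := by ring
      _ ≤ (C0 ^ 2 * Real.exp (-(μ0 * t)) * (v0 * u0)) * 1 := mul_le_mul_of_nonneg_left he (by positivity)
      _ = _ := mul_one _
  obtain ⟨w, hw⟩ : ∃ w : ℝ → ℝ, w = fun t => β t * χ2 t - χ t * β2 t := ⟨_, rfl⟩
  obtain ⟨B, hB⟩ : ∃ B : ℝ, B = 2 * (A * (C0 ^ 2 * (v0 * u0))) := ⟨_, rfl⟩
  have hwT : ∀ T : ℝ, 0 ≤ T → |w 0| ≤ C0 ^ 2 * Real.exp (-(μ0 * T)) * (v0 * u0) + B / μ := by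
    intro T hT
    have hmain := NWZ_abs w μ B T hμ hT ?_
    · have h2 : |w T| ≤ (|β T| + |χ T|) * (|β2 T| + |χ2 T|) := by
        rw [hw]
        have t1 := abs_sub (β T * χ2 T) (χ T * β2 T)
        rw [abs_mul, abs_mul] at t1
        have t2 := mul_nonneg (abs_nonneg (β T)) (abs_nonneg (β2 T))
        have t3 := mul_nonneg (abs_nonneg (χ T)) (abs_nonneg (χ2 T))
        show |β T * χ2 T - χ T * β2 T| ≤ _
        nlinarith
      have h3 := hpr T hT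
      linarith
    · intro t ht
      obtain ⟨b, c, hb, hc, e1, e2⟩ := (hL T).1.d t ht
      obtain ⟨b2, c2, hb2, hc2, e3, e4⟩ := (hL T).2.d t ht
      refine ⟨b * χ2 t + β t * c2 - (c * β2 t + χ t * b2), ?_, ?_⟩
      · rw [hw]
        exact (hb.mul hc2).sub (hc.mul hb2)
      · refine (NWZ_w e1 e2 e3 e4).trans ?_
        have h3 := hpr t ht.1
        have he : Real.exp (-(μ0 * t)) ≤ 1 := by
          rw [Real.exp_le_one_iff]
          have : 0 ≤ μ0 * t := mul_nonneg hμ0.le ht.1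
          linarith
        have h4 : (|β t| + |χ t|) * (|β2 t| + |χ2 t|) ≤ C0 ^ 2 * (v0 * u0) := by
          refine h3.trans ?_
          have h5 : C0 ^ 2 * Real.exp (-(μ0 * t)) ≤ C0 ^ 2 * 1 := mul_le_mul_of_nonneg_left he (by positivity)
          have h6 := mul_le_mul_of_nonneg_right h5 (mul_nonneg hv0n hu0n)
          linarith
        have hAe : 0 ≤ A * Real.exp (-(μ * t)) := by positivity
        have h7 := mul_le_mul_of_nonneg_left h4 hAe
        rw [hB]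
        linarith
  have hlim : Tendsto (fun T : ℝ => C0 ^ 2 * Real.exp (-(μ0 * T)) * (v0 * u0) + B / μ) atTop (𝓝 (C0 ^ 2 * 0 * (v0 * u0) + B / μ)) := by
    have h2 : Tendsto (fun T : ℝ => Real.exp (-(μ0 * T))) atTop (𝓝 0) :=
      Real.tendsto_exp_neg_atTop_nhds_zero.comp (tendsto_id.const_mul_atTop hμ0)
    exact ((h2.const_mul (C0 ^ 2)).mul_const (v0 * u0)).add_const (B / μ)
  have hle : |w 0| ≤ C0 ^ 2 * 0 * (v0 * u0) + B / μ :=
    ge_of_tendsto hlim ((eventually_ge_atTop 0).mono fun T hT => hwT T hT)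
  rw [hw] at hle
  refine hle.trans ?_
  have h8 : B / μ = 2 * C0 ^ 2 / μ * A * (v0 * u0) := by
    rw [hB]
    ring
  rw [h8]
  have h9 : 0 ≤ A * (v0 * u0) := by positivity
  nlinarith

end Pool.Agent.VNE
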