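import Pool.Agent.helper62.VN.SpecG
import Pool.Agent.helper57.VQE.PFB

set_option autoImplicit false

open scoped MatrixGroups ContDiff Topology UpperHalfPlane
open UpperHalfPlane MeasureTheory Filter Set

namespace Pool.Agent.VNE

open Pool.Agent.RS Pool.Agent.VQE
open Pool.Agent.VQ (Dyn rho kap n1 n2 hess Ug TF)
open Pool.Agent.VN (PotN OKN Kg)

noncomputable section

lemma GQC_Phi (Γ : Subgroup SL(2, ℝ)) (k : ℝ) (B : ℕ → ℝ) (U : ℍ → ℝ) (hU : PotN Γ k B U) (g : SL(2, ℝ)) :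
    CB (Metric.closedBall 0 1) (1 / k) (Ug U g) ∧ CB (Metric.closedBall 0 1) (1 / k) (fderiv ℝ (Ug U g)) := by
  have hb : ∀ v : ℂ, v ∈ Metric.closedBall (0 : ℂ) 1 → ‖v‖ ≤ 1 := fun v hv => by
    rwa [Metric.mem_closedBall, dist_zero_right] at hv
  have hat : ∀ v ∈ Metric.closedBall (0 : ℂ) 1, ContDiffAt ℝ ∞ (Ug U g) v := fun v hv => by
    have h1 := hb v hv
    exact (PFB_Ug U hU.smooth g).contDiffAt
      (Metric.isOpen_ball.mem_nhds (by rw [Metric.mem_ball, dist_zero_right]; linarith))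
  refine ⟨PFB_pair _ (1 / k) hat (fun v hv n h2 => hU.up g v (hb v hv) n (by omega)), ?_⟩
  refine PFB_pair _ (1 / k) (fun v hv => (hat v hv).fderiv_right (m := ∞) le_rfl) (fun v hv n h2 => ?_)
  rw [norm_iteratedFDeriv_fderiv]
  exact hU.up g v (hb v hv) (n + 1) (by omega)

theorem GQC_proof (h1 : VQE.PZE_stmt) (h2 : VQE.PZC_stmt) (h3 : VQE.PCA_stmt) (h4 : GSQ_stmt) (h5 : GN1_stmt) : GQC_stmt := by
  intro k hk
  obtain ⟨-, z2, z3⟩ := h1
  obtain ⟨K, hK, hze, het, hball⟩ := h2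
  have hs : Convex ℝ (Metric.closedBall one2 (1 / 10 : ℝ)) := convex_closedBall _ _
  obtain ⟨_, a2, a3⟩ := h3 (Fin 2 → Fin 2 → ℝ) (Metric.closedBall one2 (1 / 10)) hs
  have hk1 : 0 ≤ 1 / k := by positivity
  obtain ⟨A', hA', hSQ⟩ := h4 (3 * K ^ 2 * (1 / k)) (8 * k) (by positivity) (by positivity)
  have hS8 : 0 < Real.sqrt (8 * k) := Real.sqrt_pos.2 (by positivity)
  have hc0 : 0 ≤ 12 * K ^ 3 * (1 / k) := by positivity
  have hc1 : 0 ≤ 1 / Real.sqrt (8 * k) := by positivity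
  obtain ⟨K', hK'⟩ : ∃ K' : ℝ, K' = A' + 12 * K ^ 3 * (1 / k) + 1 / Real.sqrt (8 * k) := ⟨_, rfl⟩
  refine ⟨K', by rw [hK']; linarith, ?_⟩
  intro Γ B U hU g
  obtain ⟨cb0, cb1⟩ := GQC_Phi Γ k B U hU g
  have hmem : ∀ M ∈ Metric.closedBall one2 (1 / 10 : ℝ), ze M ∈ Metric.closedBall (0 : ℂ) 1 := fun M hM => by
    rw [Metric.mem_closedBall, dist_zero_right]
    linarith [hball M hM]
  have c1 : CB (Metric.closedBall one2 (1 / 10 : ℝ)) (3 * K ^ 2 * (1 / k)) (fun M => Ug U g (ze M)) :=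
    a2 (1 / k) K (Metric.closedBall 0 1) (Ug U g) ze hk1 hK cb0 hze hmem
  have hI : ‖(ContinuousLinearMap.mul ℝ ℂ).flip Complex.I‖ ≤ 1 := by
    refine ContinuousLinearMap.opNorm_le_bound _ zero_le_one fun x => ?_
    rw [ContinuousLinearMap.flip_apply, ContinuousLinearMap.mul_apply', norm_mul, Complex.norm_I, mul_one, one_mul]
  have hξ : CB (Metric.closedBall one2 (1 / 10 : ℝ)) K (fun M => et M * Complex.I) :=
    PFB_clm het ((ContinuousLinearMap.mul ℝ ℂ).flip Complex.I) hI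
  have c2 : CB (Metric.closedBall one2 (1 / 10 : ℝ)) (12 * K ^ 3 * (1 / k)) (fun M => fderiv ℝ (Ug U g) (ze M) (et M)) :=
    a3 (1 / k) K (Metric.closedBall 0 1) (fderiv ℝ (Ug U g)) ze et hk1 hK cb1 hze het hmem
  have c3 : CB (Metric.closedBall one2 (1 / 10 : ℝ)) (12 * K ^ 3 * (1 / k))
      (fun M => fderiv ℝ (Ug U g) (ze M) (et M * Complex.I)) :=
    a3 (1 / k) K (Metric.closedBall 0 1) (fderiv ℝ (Ug U g)) ze (fun M => et M * Complex.I) hk1 hK cb1 hze hξ hmem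
  have c4 := (hSQ (Fin 2 → Fin 2 → ℝ) (Metric.closedBall one2 (1 / 10)) (fun M => Ug U g (ze M)) hs c1
    (fun M _ => hU.lo _)).1
  refine ⟨_, _, _, PFB_mono c4 (by rw [hK']; linarith), PFB_mono c2 (by rw [hK']; linarith),
    PFB_mono c3 (by rw [hK']; linarith), ?_⟩
  intro D _
  have e1 : rho U 0 (g * D) = Real.sqrt (Ug U g (ze (mt D))) := by
    unfold VQ.rho
    rw [z2 U g D]
    congr 1
    ring
  refine ⟨?_, e1, h5 U g D hU.smooth, z3 U g D hU.smooth⟩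
  rw [e1]
  have h6 : Real.sqrt (8 * k) ≤ Real.sqrt (Ug U g (ze (mt D))) := Real.sqrt_le_sqrt (hU.lo _)
  refine le_trans ?_ h6
  have h7 : 1 / Real.sqrt (8 * k) ≤ K' := by
    rw [hK']
    linarith
  have h8 := one_div_le_one_div_of_le (by positivity) h7
  rw [one_div_one_div] at h8
  exact h8

end

end Pool.Agent.VNE
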